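import Pool.Agent.W952.SF.Cnt

/-!
# Decomposable circuits for Set Cover: the asymptotic form
-/

set_option autoImplicit false

open Finset Filter Topology

namespace Pool.Agent.W952.SF

open Pool.Agent.W896.RK

theorem card_small_le (m r : ℕ) (hm : 1 ≤ m) :
    (Fintype.card (Small r (m * r)) : ℝ) ≤ (3 * (m : ℝ)) ^ r := by
  have hm0 : (0 : ℝ) < m := by exact_mod_cast hm
  have hm1 : (1 : ℝ) ≤ m := by exact_mod_cast hm
  have h1 : (Fintype.card (Small r (m * r)) : ℝ) * ((m : ℝ)⁻¹) ^ r ≤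
      ∑ B : Finset (Fin (m * r)), ((m : ℝ)⁻¹) ^ B.card := by
    have h2 : (Fintype.card (Small r (m * r)) : ℝ) * ((m : ℝ)⁻¹) ^ r =
        ∑ B ∈ Finset.univ.filter (fun B : Finset (Fin (m * r)) => B.card ≤ r),
          ((m : ℝ)⁻¹) ^ r := by
      rw [Finset.sum_const, nsmul_eq_mul]
      congr 2
      rw [Fintype.card_subtype]
    rw [h2]
    calc ∑ B ∈ Finset.univ.filter (fun B : Finset (Fin (m * r)) => B.card ≤ r),
          ((m : ℝ)⁻¹) ^ r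
        ≤ ∑ B ∈ Finset.univ.filter (fun B : Finset (Fin (m * r)) => B.card ≤ r),
          ((m : ℝ)⁻¹) ^ B.card := by
          refine Finset.sum_le_sum fun B hB => ?_
          rw [Finset.mem_filter] at hB
          exact pow_le_pow_of_le_one (by positivity) (inv_le_one_of_one_le₀ hm1) hB.2
      _ ≤ ∑ B : Finset (Fin (m * r)), ((m : ℝ)⁻¹) ^ B.card :=
          Finset.sum_le_sum_of_subset_of_nonneg (Finset.filter_subset _ _)
            (fun B _ _ => by positivity)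
  have h3 : ∑ B : Finset (Fin (m * r)), ((m : ℝ)⁻¹) ^ B.card =
      ((m : ℝ)⁻¹ + 1) ^ (m * r) := by
    have h4 := Fintype.sum_pow_mul_eq_add_pow (Fin (m * r)) ((m : ℝ)⁻¹) 1
    simpa using h4
  have h5 : ((m : ℝ)⁻¹ + 1) ^ m ≤ 3 := by
    have h6 : ((m : ℝ)⁻¹ + 1) ≤ Real.exp ((m : ℝ)⁻¹) := Real.add_one_le_exp _
    calc ((m : ℝ)⁻¹ + 1) ^ m ≤ (Real.exp ((m : ℝ)⁻¹)) ^ m :=
          pow_le_pow_left₀ (by positivity) h6 m
      _ = Real.exp 1 := by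
          rw [← Real.exp_nat_mul, mul_inv_cancel₀ hm0.ne']
      _ ≤ 3 := by
          have := Real.exp_one_lt_d9
          linarith
  have h7 : (Fintype.card (Small r (m * r)) : ℝ) * ((m : ℝ)⁻¹) ^ r ≤ 3 ^ r := by
    refine h1.trans ?_
    rw [h3, pow_mul]
    exact pow_le_pow_left₀ (by positivity) h5 r
  have h8 : (Fintype.card (Small r (m * r)) : ℝ) =
      ((Fintype.card (Small r (m * r)) : ℝ) * ((m : ℝ)⁻¹) ^ r) * (m : ℝ) ^ r := by
    rw [mul_assoc, ← mul_pow, inv_mul_cancel₀ hm0.ne', one_pow, mul_one]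
  rw [h8, mul_pow]
  exact mul_le_mul_of_nonneg_right h7 (by positivity)

theorem cov_of_hasCover {r n m : ℕ} {x : Small r n → Bool} (h : HasCover m x) : Cov x := by
  obtain ⟨F, -, h2, h3⟩ := h
  intro u
  obtain ⟨B, hB, hu⟩ := h3 u
  exact ⟨B, h2 B hB, hu⟩

theorem dec_one (m r : ℕ) (hr : 0 < r) (hm : 2 ≤ m) (U : Circ (Small r (m * r)))
    (hU : ∀ x, U.Val x U.out ↔ HasCover m x)
    (hd : ∃ d : U.G → Full r (m * r) → ℕ, IsDeg U rs d ∧ ∀ B, d U.out B ≤ 1) :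
    2 ^ (m * r) ≤ (m * r + 1) * 3 ^ m * Fintype.card U.G := by
  obtain ⟨ρ, h⟩ := dec_final m r 0 hr hm Unit (fun _ => U)
    (fun _ x hx => cov_of_hasCover ((hU x).1 hx))
    (fun x hx => by
      have h1 : 0 < Nat.card {_ρ : Unit // U.Val x U.out} := by
        rw [Nat.card_pos_iff]
        exact ⟨⟨⟨(), (hU x).2 hx⟩⟩, inferInstance⟩
      rw [pow_zero, one_mul, Nat.card_unique]
      exact h1)
    (fun _ => hd)
  simpa using h

theorem dec_asy (ε : ℝ) (hε : 0 < ε) : ∃ r : ℕ, 1 ≤ r ∧ ∀ A : ℕ, ∃ C : ℕ, ∀ m : ℕ, C ≤ m →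
    ∀ U : Circ (Small r (m * r)), (∀ x, U.Val x U.out ↔ HasCover m x) →
      (∃ d : U.G → Full r (m * r) → ℕ, IsDeg U rs d ∧ ∀ B, d U.out B ≤ 1) →
        (2 : ℝ) ^ ((1 - ε) * ((m : ℝ) * r)) * (Fintype.card (Small r (m * r)) : ℝ) ^ A <
          Fintype.card U.G := by
  obtain ⟨r, hr⟩ := exists_nat_ge (4 / ε + 1)
  have hr1 : (1 : ℝ) ≤ r := by
    have : 0 < 4 / ε := by positivity
    linarith
  have hr1' : 1 ≤ r := by exact_mod_cast hr1
  have hεr : 4 ≤ ε * r := by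
    have h1 : 4 / ε ≤ r := by linarith
    rw [div_le_iff₀ hε] at h1
    linarith
  refine ⟨r, hr1', fun A => ?_⟩
  -- (m r + 1) (3 m)^(r A) < 4 ^ m eventually
  have ht : Tendsto (fun n : ℕ => (n : ℝ) ^ (r * A + 1) / (4 : ℝ) ^ n) atTop (𝓝 0) :=
    tendsto_pow_const_div_const_pow_of_one_lt _ (by norm_num)
  have hev : ∀ᶠ m : ℕ in atTop, (m : ℝ) ^ (r * A + 1) / (4 : ℝ) ^ m <
      1 / (2 * r * 3 ^ (r * A)) := ht.eventually_lt_const (by positivity)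
  obtain ⟨C0, hC0⟩ := eventually_atTop.1 hev
  refine ⟨max C0 2, fun m hm U hU hd => ?_⟩
  have hm2 : 2 ≤ m := (le_max_right _ _).trans hm
  have hm1 : (1 : ℝ) ≤ m := by exact_mod_cast (by omega : 1 ≤ m)
  have h1 := hC0 m ((le_max_left _ _).trans hm)
  rw [div_lt_div_iff₀ (by positivity) (by positivity), one_mul] at h1
  have h2 := dec_one m r hr1' hm2 U hU hd
  have h3 : (2 : ℝ) ^ (m * r) ≤ ((m : ℝ) * r + 1) * 3 ^ m * Fintype.card U.G := by
    exact_mod_cast h2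
  have h4 := card_small_le m r (by omega)
  have h5 : (Fintype.card (Small r (m * r)) : ℝ) ^ A ≤ (3 * (m : ℝ)) ^ (r * A) := by
    rw [pow_mul]
    exact pow_le_pow_left₀ (by positivity) h4 A
  have hmr : (m : ℝ) * r + 1 ≤ 2 * r * m := by nlinarith
  -- the exponent
  have h6 : (2 : ℝ) ^ ((1 - ε) * ((m : ℝ) * r)) * 16 ^ m ≤ 2 ^ (m * r) := by
    have e1 : (16 : ℝ) ^ m = (2 : ℝ) ^ ((4 : ℝ) * m) := by
      rw [Real.rpow_mul (by norm_num), Real.rpow_natCast]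
      norm_num
    have e2 : (2 : ℝ) ^ (m * r) = (2 : ℝ) ^ (((m : ℝ)) * r) := by
      rw [← Real.rpow_natCast]
      push_cast
      rfl
    rw [e1, e2, ← Real.rpow_add (by norm_num)]
    apply Real.rpow_le_rpow_of_exponent_le (by norm_num)
    nlinarith
  have hG : (0 : ℝ) < Fintype.card U.G := by
    have : 0 < Fintype.card U.G := Fintype.card_pos_iff.2 ⟨U.out⟩
    exact_mod_cast this
  have hx : (0 : ℝ) < (2 : ℝ) ^ ((1 - ε) * ((m : ℝ) * r)) := by positivity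
  -- combine
  have h7 : (2 : ℝ) ^ ((1 - ε) * ((m : ℝ) * r)) * 16 ^ m ≤
      (2 * r * m) * 3 ^ m * Fintype.card U.G := by
    refine h6.trans (h3.trans ?_)
    gcongr
  have h8 : (2 * (r : ℝ) * m) * (3 * (m : ℝ)) ^ (r * A) < 4 ^ m := by
    have e1 : (2 * (r : ℝ) * m) * (3 * (m : ℝ)) ^ (r * A) =
        (m : ℝ) ^ (r * A + 1) * (2 * r * 3 ^ (r * A)) := by
      rw [mul_pow, pow_succ]
      ring
    rw [e1]
    exact h1
  have h34 : (3 : ℝ) ^ m ≤ 4 ^ m := pow_le_pow_left₀ (by norm_num) (by norm_num) m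
  have h44 : (16 : ℝ) ^ m = 4 ^ m * 4 ^ m := by
    rw [← mul_pow]
    norm_num
  obtain ⟨X, hX⟩ : ∃ X, X = (2 : ℝ) ^ ((1 - ε) * ((m : ℝ) * r)) := ⟨_, rfl⟩
  obtain ⟨N, hN⟩ : ∃ N, N = (Fintype.card (Small r (m * r)) : ℝ) ^ A := ⟨_, rfl⟩
  obtain ⟨g, hg⟩ : ∃ g, g = (Fintype.card U.G : ℝ) := ⟨_, rfl⟩
  obtain ⟨T, hT⟩ : ∃ T, T = (4 : ℝ) ^ m := ⟨_, rfl⟩
  obtain ⟨Q, hQ⟩ : ∃ Q, Q = (3 * (m : ℝ)) ^ (r * A) := ⟨_, rfl⟩
  obtain ⟨P, hP⟩ : ∃ P, P = 2 * (r : ℝ) * m := ⟨_, rfl⟩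
  rw [← hX, ← hN, ← hg]
  rw [← hX, h44, ← hg, ← hT, ← hP] at h7
  rw [← hP, ← hQ, ← hT] at h8
  rw [← hN, ← hQ] at h5
  rw [← hT] at h34
  rw [← hX] at hx
  rw [← hg] at hG
  have hTpos : 0 < T := by rw [hT]; positivity
  have hPpos : 0 < P := by rw [hP]; positivity
  have hQpos : 0 < Q := by rw [hQ]; positivity
  -- X T T ≤ P 3^m g ≤ P T g
  have h9 : X * T ≤ P * g := by
    have : X * (T * T) ≤ P * T * g := by
      refine h7.trans ?_
      gcongr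
    have h10 : (X * T) * T ≤ (P * g) * T := by nlinarith
    exact le_of_mul_le_mul_right h10 hTpos
  -- X N P ≤ X Q P < X T ≤ P g
  have h10 : (X * N) * P < g * P := by
    calc (X * N) * P ≤ (X * Q) * P := by gcongr
      _ = X * (P * Q) := by ring
      _ < X * T := by gcongr
      _ ≤ P * g := h9
      _ = g * P := mul_comm _ _
  exact lt_of_mul_lt_mul_right h10 hPpos.le

end Pool.Agent.W952.SF
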