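import Pool.Agent.W952.SF.Dec

/-!
# Set Cover and decomposable circuits: counting
-/

set_option autoImplicit false

open Finset

namespace Pool.Agent.W952.SF

open Pool.Agent.W896.RK Pool.Agent.W896.HP

variable {m r : ℕ}

theorem fact3 {a b c n : ℕ} (h : a + b + c = n) (ha : 2 * a ≤ n) (hb : 2 * b ≤ n)
    (hc : 2 * c ≤ n) :
    a.factorial * b.factorial * c.factorial ≤ (n / 2).factorial * (n - n / 2).factorial := by
  obtain ⟨e, he⟩ : ∃ e, e = n / 2 - a := ⟨_, rfl⟩
  have hae : n / 2 - e = a := by omega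
  have hec : e ≤ c := by omega
  have he2 : e ≤ n / 2 := by omega
  have h1 := Nat.factorial_mul_descFactorial hec
  have h2 := Nat.factorial_mul_descFactorial he2
  rw [hae] at h2
  have h3 : c.descFactorial e ≤ (n / 2).descFactorial e :=
    Nat.descFactorial_le e (by omega)
  have h4 : b.factorial * (c - e).factorial ≤ (n - n / 2).factorial := by
    have h5 := Nat.le_of_dvd (Nat.factorial_pos _) (Nat.factorial_mul_factorial_dvd_factorial_add
      b (c - e))
    have h6 : b + (c - e) = n - n / 2 := by omega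
    rwa [h6] at h5
  calc a.factorial * b.factorial * c.factorial
      = a.factorial * (b.factorial * (c - e).factorial) * c.descFactorial e := by
        rw [← h1]; ring
    _ ≤ a.factorial * (n - n / 2).factorial * (n / 2).descFactorial e :=
        Nat.mul_le_mul (Nat.mul_le_mul_left _ h4) h3
    _ = (a.factorial * (n / 2).descFactorial e) * (n - n / 2).factorial := by ring
    _ = _ := by rw [h2]

theorem colr_zero {A B : Finset (Fin m)} {i : Fin m} : colr A B i = 0 ↔ i ∈ A := by
  unfold colr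
  split_ifs with h1 h2
  · simp [h1]
  · simp [h1]
  · simp [h1]

theorem colr_one {A B : Finset (Fin m)} (h : Disjoint A B) {i : Fin m} :
    colr A B i = 1 ↔ i ∈ B := by
  unfold colr
  split_ifs with h1 h2
  · have := Finset.disjoint_left.1 h h1
    simp [this]
  · simp [h2]
  · simp [h2]

theorem card_fib (k : Fin m → Fin 3) (i : Fin 3) :
    Fintype.card {x : Fin m × Fin r // k x.1 = i} = (univ.filter (fun j => k j = i)).card * r := by
  rw [Fintype.card_subtype]
  have : (univ.filter (fun x : Fin m × Fin r => k x.1 = i)) =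
      (univ.filter (fun j => k j = i)) ×ˢ (univ : Finset (Fin r)) := by
    ext x
    simp
  rw [this, card_product, card_univ, Fintype.card_fin]

/-- The number of permutations which respect a balanced colouring of the blocks. -/
theorem card_resp (A B : Finset (Fin m)) (hAB : Disjoint A B) (hA : 2 * A.card ≤ m)
    (hB : 2 * B.card ≤ m) (hs : m < 2 * (A.card + B.card)) :
    Fintype.card {g : Equiv.Perm (Fin m × Fin r) //
      (fun x : Fin m × Fin r => colr A B x.1) ∘ g = (fun x => colr A B x.1)} ≤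
      ((m * r) / 2).factorial * (m * r - (m * r) / 2).factorial := by
  rw [DomMulAct.stabilizer_card, Fin.prod_univ_three]
  rw [card_fib, card_fib, card_fib]
  have e0 : (univ.filter (fun j => colr A B j = 0)) = A := by
    ext j; simp [colr_zero]
  have e1 : (univ.filter (fun j => colr A B j = 1)) = B := by
    ext j; simp [colr_one hAB]
  have e2 : (univ.filter (fun j => colr A B j = 2)).card + (A.card + B.card) = m := by
    have h1 : (univ : Finset (Fin m)).card = m := by rw [card_univ, Fintype.card_fin]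
    have h2 : (univ.filter (fun j => colr A B j = 2)) = (A ∪ B)ᶜ := by
      ext j
      rw [mem_filter, mem_compl, mem_union]
      simp only [mem_univ, true_and]
      unfold colr
      split_ifs with h1 h2
      · simp [h1]
      · simp [h2]
      · simp [h1, h2]
    rw [h2, ← card_union_of_disjoint hAB]
    have h3 := card_compl_add_card (A ∪ B)
    rw [Fintype.card_fin] at h3
    exact h3
  rw [e0, e1]
  obtain ⟨c, hc⟩ : ∃ c, c = (univ.filter (fun j => colr A B j = 2)).card := ⟨_, rfl⟩
  rw [← hc] at e2 ⊢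
  refine fact3 ?_ ?_ ?_ ?_
  · calc A.card * r + B.card * r + c * r = (c + (A.card + B.card)) * r := by ring
      _ = m * r := by rw [e2]
  · calc 2 * (A.card * r) = (2 * A.card) * r := by ring
      _ ≤ m * r := Nat.mul_le_mul_right _ hA
  · calc 2 * (B.card * r) = (2 * B.card) * r := by ring
      _ ≤ m * r := Nat.mul_le_mul_right _ hB
  · calc 2 * (c * r) = (2 * c) * r := by ring
      _ ≤ m * r := Nat.mul_le_mul_right _ (by omega)

open Classical in
theorem card_acc {U : Circ (Small r (m * r))} {d : U.G → Full r (m * r) → ℕ}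
    (hd : IsDeg U rs d) (hr : 0 < r) (hm : 2 ≤ m) (h1 : ∀ B, d U.out B ≤ 1)
    (hU : ∀ x, U.Val x U.out → Cov x) :
    (univ.filter (fun π : Num m r => U.Val (X (zf π)) U.out)).card ≤
      (((m * r) / 2).factorial * (m * r - (m * r) / 2).factorial) *
        (Fintype.card U.G * 3 ^ m) := by
  have hex : ∀ π : Num m r, ∃ k : U.G × (Fin m → Fin 3), U.Val (X (zf π)) U.out →
      ∃ a b, U.gate k.1 = Gate.and a b ∧ W U d π a ∧ W U d π b ∧
        Disjoint (I d π a) (I d π b) ∧ 2 * (I d π a).card ≤ m ∧ 2 * (I d π b).card ≤ m ∧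
        m < 2 * ((I d π a).card + (I d π b).card) ∧ k.2 = colr (I d π a) (I d π b) := by
    intro π
    by_cases hπ : U.Val (X (zf π)) U.out
    · obtain ⟨g, a, b, e, h2, h3, h4, h5, h6, h7⟩ := key_of hd hr hm h1 hU π hπ
      refine ⟨(g, colr (I d π a) (I d π b)), fun _ => ⟨a, b, e, h2, h3, ?_, h5, h6, h7, rfl⟩⟩
      rw [Finset.disjoint_left]
      intro i hi hi'
      rw [mem_I] at hi hi'
      have := h4 (blk π i)
      omega
    · exact ⟨(U.out, fun _ => 0), fun h => absurd h hπ⟩
  choose key hkey using hex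
  have hcard : Fintype.card U.G * 3 ^ m =
      (univ : Finset (U.G × (Fin m → Fin 3))).card := by
    rw [card_univ, Fintype.card_prod, Fintype.card_fun, Fintype.card_fin, Fintype.card_fin]
  rw [hcard]
  refine card_le_mul_card_image_of_maps_to (f := key) (fun _ _ => mem_univ _) _ ?_
  intro k _
  rcases eq_empty_or_nonempty
    ((univ.filter (fun π : Num m r => U.Val (X (zf π)) U.out)).filter (fun π => key π = k))
    with h0 | ⟨π₀, hπ₀⟩
  · rw [h0, card_empty]
    exact Nat.zero_le _
  rw [mem_filter, mem_filter] at hπ₀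
  obtain ⟨⟨-, hv₀⟩, hk₀⟩ := hπ₀
  obtain ⟨a, b, e, hWa, hWb, hdis, hA, hB, hs, hcol⟩ := hkey π₀ hv₀
  rw [hk₀] at e hcol
  refine le_trans ?_ (card_resp (r := r) _ _ hdis hA hB hs)
  rw [Fintype.card_subtype]
  refine card_le_card_of_injOn (fun π => π.trans π₀.symm) ?_ ?_
  · intro π hπ
    rw [mem_coe, mem_filter, mem_filter] at hπ
    obtain ⟨⟨-, hv⟩, hk⟩ := hπ
    obtain ⟨a', b', e', hWa', hWb', hdis', -, -, -, hcol'⟩ := hkey π hv
    rw [hk] at e' hcol'
    have hab : a' = a ∧ b' = b := by
      rw [e] at e'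
      injection e' with h2 h3
      exact ⟨h2.symm, h3.symm⟩
    obtain ⟨rfl, rfl⟩ := hab
    rw [mem_coe, mem_filter]
    refine ⟨mem_univ _, ?_⟩
    funext x
    rw [Function.comp_apply]
    show colr _ _ ((π₀.symm (π x)).1) = colr _ _ x.1
    have hx : x.1 = (π.symm (π x)).1 := by rw [Equiv.symm_apply_apply]
    rw [hx]
    obtain ⟨u, hu⟩ : ∃ u, u = π x := ⟨_, rfl⟩
    rw [← hu]
    have h2 : colr (I d π₀ a') (I d π₀ b') (π.symm u).1 =
        colr (I d π a') (I d π b') (π.symm u).1 := by
      rw [← hcol, hcol']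
    rw [h2]
    have h3 : (π₀.symm u).1 ∈ I d π₀ a' ↔ (π.symm u).1 ∈ I d π a' :=
      ⟨mix hd hU hWa hWa' u, mix hd hU hWa' hWa u⟩
    have h4 : (π₀.symm u).1 ∈ I d π₀ b' ↔ (π.symm u).1 ∈ I d π b' :=
      ⟨mix hd hU hWb hWb' u, mix hd hU hWb' hWb u⟩
    unfold colr
    simp only [h3, h4]
  · intro π _ π' _ h
    have h2 : π.trans π₀.symm = π'.trans π₀.symm := h
    have h3 := congrArg (fun f => f.trans π₀) h2
    simp only [Equiv.trans_assoc, Equiv.symm_trans_self, Equiv.trans_refl] at h3
    exact h3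

/-- **The bound.** -/
theorem dec_final (m r μ : ℕ) (hr : 0 < r) (hm : 2 ≤ m) (R : Type) [Fintype R] [Nonempty R]
    (U : R → Circ (Small r (m * r)))
    (hU : ∀ ρ x, (U ρ).Val x (U ρ).out → Cov x)
    (hc : ∀ x : Small r (m * r) → Bool, HasCover m x →
      Nat.card R ≤ 2 ^ μ * Nat.card {ρ // (U ρ).Val x (U ρ).out})
    (hd : ∀ ρ, ∃ d : (U ρ).G → Full r (m * r) → ℕ, IsDeg (U ρ) rs d ∧
      ∀ B, d (U ρ).out B ≤ 1) :
    ∃ ρ, 2 ^ (m * r) ≤ 2 ^ μ * (m * r + 1) * 3 ^ m * Fintype.card (U ρ).G := by
  classical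
  obtain ⟨n, hn⟩ : ∃ n, n = m * r := ⟨_, rfl⟩
  by_contra hcon
  push Not at hcon
  have hcon' : ∀ ρ, 2 ^ μ * (n + 1) * 3 ^ m * Fintype.card (U ρ).G < 2 ^ n := by
    intro ρ
    rw [hn]
    exact hcon ρ
  -- some circuit accepts many partitions
  have h1 : ∀ ρ, 2 ^ μ * (univ.filter (fun π : Num m r => (U ρ).Val (X (zf π)) (U ρ).out)).card <
      n.factorial := by
    intro ρ
    obtain ⟨d, hd1, hd2⟩ := hd ρ
    have h2 : (univ.filter (fun π : Num m r => (U ρ).Val (X (zf π)) (U ρ).out)).card ≤
        ((n / 2).factorial * (n - n / 2).factorial) * (Fintype.card (U ρ).G * 3 ^ m) := by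
      rw [hn]
      exact card_acc hd1 hr hm hd2 (hU ρ)
    have h3 := hcon' ρ
    have h4 : 2 ^ n ≤ (n + 1) * n.choose (n / 2) := by
      rw [← Nat.sum_range_choose]
      calc ∑ i ∈ range (n + 1), n.choose i ≤ ∑ _i ∈ range (n + 1), n.choose (n / 2) :=
            sum_le_sum (fun i _ => Nat.choose_le_middle i n)
        _ = _ := by rw [sum_const, card_range, smul_eq_mul]
    have h5 : 2 ^ μ * 3 ^ m * Fintype.card (U ρ).G < n.choose (n / 2) := by
      by_contra h6
      push Not at h6
      have h7 : (n + 1) * n.choose (n / 2) ≤ (n + 1) * (2 ^ μ * 3 ^ m * Fintype.card (U ρ).G) :=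
        Nat.mul_le_mul_left _ h6
      have h8 : (n + 1) * (2 ^ μ * 3 ^ m * Fintype.card (U ρ).G) =
          2 ^ μ * (n + 1) * 3 ^ m * Fintype.card (U ρ).G := by ring
      omega
    have h6 : n.choose (n / 2) * (n / 2).factorial * (n - n / 2).factorial = n.factorial :=
      Nat.choose_mul_factorial_mul_factorial (Nat.div_le_self n 2)
    calc 2 ^ μ * (univ.filter (fun π : Num m r => (U ρ).Val (X (zf π)) (U ρ).out)).card
        ≤ 2 ^ μ * (((n / 2).factorial * (n - n / 2).factorial) *
          (Fintype.card (U ρ).G * 3 ^ m)) := Nat.mul_le_mul_left _ h2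
      _ = (2 ^ μ * 3 ^ m * Fintype.card (U ρ).G) *
          ((n / 2).factorial * (n - n / 2).factorial) := by ring
      _ < n.choose (n / 2) * ((n / 2).factorial * (n - n / 2).factorial) :=
          Nat.mul_lt_mul_of_pos_right h5
            (Nat.mul_pos (Nat.factorial_pos _) (Nat.factorial_pos _))
      _ = n.factorial := by rw [← h6]; ring
  have h2 : ∑ ρ : R, 2 ^ μ *
      (univ.filter (fun π : Num m r => (U ρ).Val (X (zf π)) (U ρ).out)).card <
      Fintype.card R * n.factorial := by
    calc _ < ∑ _ρ : R, n.factorial := sum_lt_sum_of_nonempty univ_nonempty (fun ρ _ => h1 ρ)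
      _ = _ := by rw [sum_const, card_univ, smul_eq_mul]
  have hcn : Fintype.card (Num m r) = n.factorial := by
    have h3 : Fintype.card (Fin m × Fin r) = Fintype.card (Fin (m * r)) := by simp
    rw [Fintype.card_equiv (Fintype.equivOfCardEq h3), Fintype.card_prod, Fintype.card_fin,
      Fintype.card_fin, hn]
  have h3 : Fintype.card R * n.factorial ≤ ∑ ρ : R, 2 ^ μ *
      (univ.filter (fun π : Num m r => (U ρ).Val (X (zf π)) (U ρ).out)).card := by
    have h4 : ∑ ρ : R, (univ.filter (fun π : Num m r => (U ρ).Val (X (zf π)) (U ρ).out)).card =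
        ∑ π : Num m r, (univ.filter (fun ρ : R => (U ρ).Val (X (zf π)) (U ρ).out)).card := by
      simp only [card_filter]
      exact sum_comm
    rw [← mul_sum, h4, mul_sum, ← hcn, mul_comm, ← smul_eq_mul, ← card_univ (α := Num m r),
      ← sum_const]
    refine sum_le_sum (fun π _ => ?_)
    have h5 := hc _ (hasCover_zf π)
    rw [Nat.card_eq_fintype_card, Nat.card_eq_fintype_card, Fintype.card_subtype] at h5
    exact h5
  omega

end Pool.Agent.W952.SF
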