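import Mathlib

/-!
# Set Cover: definitions
-/

set_option autoImplicit false

namespace Pool.Agent.W952.SF

/-- The subsets of `Fin n` with at most `r` elements. -/
abbrev Small (r n : ℕ) : Type := {B : Finset (Fin n) // B.card ≤ r}

/-- The family of the sets `B` with `x B = true` contains at most `m` sets with union `Fin n`. -/
def HasCover {r n : ℕ} (m : ℕ) (x : Small r n → Bool) : Prop :=
  ∃ F : Finset (Small r n), F.card ≤ m ∧ (∀ B ∈ F, x B = true) ∧ ∀ u : Fin n, ∃ B ∈ F, u ∈ B.1

/-- The subsets of `Fin n` with exactly `r` elements. -/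
abbrev Full (r n : ℕ) : Type := {B : Finset (Fin n) // B.card = r}

/-- They are small. -/
def rs {r n : ℕ} (B : Full r n) : Small r n := ⟨B.1, B.2.le⟩

theorem rs_inj {r n : ℕ} : Function.Injective (rs (r := r) (n := n)) := by
  intro B C h
  apply Subtype.ext
  exact congrArg (fun x : Small r n => x.1) h

end Pool.Agent.W952.SF
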