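import Pool.Agent.W896.RK.Piece
import Pool.Agent.W952.SF.Defs

/-!
# Set Cover and decomposable circuits
-/

set_option autoImplicit false

open Finset

namespace Pool.Agent.W952.SF

open Pool.Agent.W896.RK Pool.Agent.W896.HP

variable {m r : ℕ}

/-- A numbering of the elements by pairs. -/
abbrev Num (m r : ℕ) : Type := Fin m × Fin r ≃ Fin (m * r)

/-- The block `i` of the partition. -/
def blk (π : Num m r) (i : Fin m) : Full r (m * r) :=
  ⟨univ.map ⟨fun t => π (i, t), fun t t' h => by
    have h1 := π.injective h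
    rw [Prod.mk.injEq] at h1
    exact h1.2⟩, by rw [card_map, card_univ, Fintype.card_fin]⟩

theorem mem_blk (π : Num m r) (i : Fin m) (u : Fin (m * r)) :
    u ∈ (blk π i).1 ↔ (π.symm u).1 = i := by
  unfold blk
  simp only [mem_map, mem_univ, true_and, Function.Embedding.coeFn_mk]
  constructor
  · rintro ⟨t, rfl⟩
    rw [Equiv.symm_apply_apply]
  · rintro rfl
    exact ⟨(π.symm u).2, by rw [Prod.mk.eta, Equiv.apply_symm_apply]⟩

theorem blk_inj (hr : 0 < r) (π : Num m r) : Function.Injective (blk π) := by
  intro i j h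
  have h1 : π (i, ⟨0, hr⟩) ∈ (blk π i).1 := by
    rw [mem_blk, Equiv.symm_apply_apply]
  rw [h, mem_blk, Equiv.symm_apply_apply] at h1
  exact h1

open Classical in
/-- The family of the blocks. -/
noncomputable def zf (π : Num m r) (B : Full r (m * r)) : Bool := decide (∃ i, blk π i = B)

theorem zf_true {π : Num m r} {B : Full r (m * r)} : zf π B = true ↔ ∃ i, blk π i = B := by
  unfold zf
  exact decide_eq_true_iff

open Classical in
/-- The family of the blocks different from block `i`. -/
noncomputable def rem (π : Num m r) (i : Fin m) (B : Full r (m * r)) : Bool :=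
  decide ((∃ j, blk π j = B) ∧ B ≠ blk π i)

theorem rem_true {π : Num m r} {i : Fin m} {B : Full r (m * r)} :
    rem π i B = true ↔ (∃ j, blk π j = B) ∧ B ≠ blk π i := by
  unfold rem
  exact decide_eq_true_iff

theorem rem_eq {π : Num m r} {i : Fin m} {B : Full r (m * r)} (h : B ≠ blk π i) :
    rem π i B = zf π B := by
  rw [Bool.eq_iff_iff, rem_true, zf_true]
  exact ⟨fun h1 => h1.1, fun h1 => ⟨h1, h⟩⟩

/-- The instance given by a family of sets with exactly `r` elements. -/
noncomputable def X (z : Full r (m * r) → Bool) : Small r (m * r) → Bool :=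
  fill rs (fun _ => false) z

theorem X_rs (z : Full r (m * r) → Bool) (B : Full r (m * r)) : X z (rs B) = z B :=
  fill_apply rs_inj _ _ B

theorem X_true {z : Full r (m * r) → Bool} {v : Small r (m * r)} (h : X z v = true) :
    ∃ B, rs B = v ∧ z B = true := by
  by_cases h1 : ∃ B, rs B = v
  · obtain ⟨B, rfl⟩ := h1
    rw [X_rs] at h
    exact ⟨B, rfl, h⟩
  · push Not at h1
    unfold X at h
    rw [fill_other _ _ h1] at h
    exact absurd h (by decide)

/-- The union of the sets of the family is everything. -/
def Cov {n : ℕ} (x : Small r n → Bool) : Prop := ∀ u : Fin n, ∃ B : Small r n, x B = true ∧ u ∈ B.1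

theorem covers {z : Full r (m * r) → Bool} (h : Cov (X z)) (u : Fin (m * r)) :
    ∃ B, z B = true ∧ u ∈ B.1 := by
  obtain ⟨v, hv, hu⟩ := h u
  obtain ⟨B, rfl, hB⟩ := X_true hv
  exact ⟨B, hB, hu⟩

theorem hasCover_zf (π : Num m r) : HasCover m (X (zf π)) := by
  classical
  refine ⟨univ.image (fun i => rs (blk π i)), ?_, ?_, ?_⟩
  · refine card_image_le.trans ?_
    rw [card_univ, Fintype.card_fin]
  · intro B hB
    rw [mem_image] at hB
    obtain ⟨i, -, rfl⟩ := hB
    rw [X_rs, zf_true]
    exact ⟨i, rfl⟩
  · intro u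
    exact ⟨rs (blk π (π.symm u).1), mem_image_of_mem _ (mem_univ _),
      (mem_blk π _ u).2 rfl⟩

theorem not_cover_rem (hr : 0 < r) (π : Num m r) (i : Fin m) : ¬ Cov (X (rem π i)) := by
  intro h
  obtain ⟨B, h1, h2⟩ := covers h (π (i, ⟨0, hr⟩))
  rw [rem_true] at h1
  obtain ⟨⟨j, rfl⟩, h3⟩ := h1
  rw [mem_blk, Equiv.symm_apply_apply] at h2
  exact h3 (congrArg (blk π) h2.symm)

variable {U : Circ (Small r (m * r))} {d : U.G → Full r (m * r) → ℕ}

/-- The gate can be used in a proof tree for the partition. -/
structure W (U : Circ (Small r (m * r))) (d : U.G → Full r (m * r) → ℕ) (π : Num m r)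
    (g : U.G) : Prop where
  /-- it is true -/
  val : U.Val (X (zf π)) g
  /-- it is decomposable -/
  le : ∀ B, d g B ≤ 1
  /-- the context accepts -/
  ctx : ∀ z, (∀ B, d g B = 0 → z B = zf π B) → U.Val (X z) g → U.Val (X z) U.out

/-- The blocks read below the gate. -/
def I (d : U.G → Full r (m * r) → ℕ) (π : Num m r) (g : U.G) : Finset (Fin m) :=
  univ.filter (fun i => 0 < d g (blk π i))

theorem mem_I {π : Num m r} {g : U.G} {i : Fin m} : i ∈ I d π g ↔ 0 < d g (blk π i) := by
  unfold I
  simp

theorem dep (hd : IsDeg U rs d) {z z' : Full r (m * r) → Bool} {g : U.G} (h : U.Val (X z) g)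
    (hz : ∀ B, 0 < d g B → z B = z' B) : U.Val (X z') g :=
  val_dep hd h hz

/-- All blocks below a gate are read below its inputs. -/
theorem no_rem (hr : 0 < r) (hU : ∀ x, U.Val x U.out → Cov x) {π : Num m r} {g : U.G}
    (hW : W U d π g) {i : Fin m} (hi : i ∈ I d π g) : ¬ U.Val (X (rem π i)) g := by
  intro h
  refine not_cover_rem hr π i (hU _ (hW.ctx _ (fun B hB => rem_eq ?_) h))
  rintro rfl
  rw [mem_I] at hi
  omega

theorem walk (hd : IsDeg U rs d) (hr : 0 < r) (hm : 2 ≤ m)
    (hU : ∀ x, U.Val x U.out → Cov x) (π : Num m r) :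
    ∀ (N : ℕ) (g : U.G), U.rk g < N → W U d π g → m < 2 * (I d π g).card →
      ∃ g' a b, U.gate g' = Gate.and a b ∧ W U d π a ∧ W U d π b ∧
        (∀ B, d a B + d b B ≤ 1) ∧ 2 * (I d π a).card ≤ m ∧ 2 * (I d π b).card ≤ m ∧
        m < 2 * ((I d π a).card + (I d π b).card) := by
  intro N
  induction N with
  | zero => intro g h; omega
  | succ N ih =>
    intro g hg hW hc
    cases hW.val with
    | @lit g v b e h =>
      exfalso
      have h1 : 1 < (I d π g).card := by omega
      rw [one_lt_card] at h1
      obtain ⟨i, hi, j, hj, hij⟩ := h1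
      obtain ⟨i', hi', hv⟩ : ∃ i' ∈ I d π g, rs (blk π i') ≠ v := by
        by_cases h2 : rs (blk π i) = v
        · refine ⟨j, hj, fun h3 => hij ?_⟩
          rw [← h3] at h2
          exact blk_inj hr π (rs_inj h2)
        · exact ⟨i, hi, h2⟩
      refine no_rem hr hU hW hi' (Circ.Val.lit e ?_)
      rw [← h]
      by_cases h2 : ∃ B, rs B = v
      · obtain ⟨B, rfl⟩ := h2
        rw [X_rs, X_rs]
        exact rem_eq (fun h3 => hv (congrArg rs h3.symm))
      · push Not at h2
        unfold X
        rw [fill_other _ _ h2, fill_other _ _ h2]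
    | @and g a b e ha hb =>
      have hle : ∀ B, d a B + d b B ≤ 1 := fun B => (hd.2.1 g a b e B).trans (hW.le B)
      have hWa : W U d π a := by
        refine ⟨ha, fun B => by have := hle B; omega, fun z hz h => ?_⟩
        refine hW.ctx z (fun B hB => hz B ?_) (Circ.Val.and e h (dep hd hb ?_))
        · have := hd.2.1 g a b e B
          omega
        · intro B hB
          exact (hz B (by have := hle B; omega)).symm
      have hWb : W U d π b := by
        refine ⟨hb, fun B => by have := hle B; omega, fun z hz h => ?_⟩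
        refine hW.ctx z (fun B hB => hz B ?_) (Circ.Val.and e (dep hd ha ?_) h)
        · have := hd.2.1 g a b e B
          omega
        · intro B hB
          exact (hz B (by have := hle B; omega)).symm
      have hsub : I d π g ⊆ I d π a ∪ I d π b := by
        intro i hi
        by_contra h1
        rw [mem_union, not_or, mem_I, mem_I] at h1
        refine no_rem hr hU hW hi (Circ.Val.and e (dep hd ha fun B hB => ?_)
          (dep hd hb fun B hB => ?_))
        · refine (rem_eq ?_).symm
          rintro rfl
          exact h1.1 hB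
        · refine (rem_eq ?_).symm
          rintro rfl
          exact h1.2 hB
      have hcard : (I d π g).card ≤ (I d π a).card + (I d π b).card :=
        (card_le_card hsub).trans (card_union_le _ _)
      have hrk := U.rk_and g a b e
      by_cases h1 : 2 * (I d π a).card ≤ m
      · by_cases h2 : 2 * (I d π b).card ≤ m
        · exact ⟨g, a, b, e, hWa, hWb, hle, h1, h2, by omega⟩
        · exact ih b (by omega) hWb (by omega)
      · exact ih a (by omega) hWa (by omega)
    | @any g a S e ha h =>
      have hWa : W U d π a := by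
        refine ⟨h, fun B => (hd.2.2 g S a e ha B).trans (hW.le B), fun z hz h' => ?_⟩
        refine hW.ctx z (fun B hB => hz B ?_) (Circ.Val.any e ha h')
        have := hd.2.2 g S a e ha B
        omega
      have hsub : I d π g ⊆ I d π a := by
        intro i hi
        by_contra h1
        rw [mem_I] at h1
        refine no_rem hr hU hW hi (Circ.Val.any e ha (dep hd h fun B hB => ?_))
        refine (rem_eq ?_).symm
        rintro rfl
        exact h1 hB
      have hcard := card_le_card hsub
      have hrk := U.rk_any g S a e ha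
      exact ih a (by omega) hWa (by omega)

/-- Two partitions which use the same gate for the same blocks. -/
theorem mix (hd : IsDeg U rs d) (hU : ∀ x, U.Val x U.out → Cov x) {π π' : Num m r}
    {h : U.G} (hW : W U d π h) (hW' : W U d π' h) (u : Fin (m * r))
    (hu : (π.symm u).1 ∈ I d π h) : (π'.symm u).1 ∈ I d π' h := by
  classical
  obtain ⟨z, hz⟩ : ∃ z : Full r (m * r) → Bool,
      ∀ B, z B = if 0 < d h B then zf π' B else zf π B := ⟨_, fun _ => rfl⟩
  have h1 : U.Val (X z) h := by
    refine dep hd hW'.val (fun B hB => ?_)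
    rw [hz, if_pos hB]
  have h2 : U.Val (X z) U.out := by
    refine hW.ctx z (fun B hB => ?_) h1
    rw [hz, if_neg (by omega)]
  obtain ⟨B, hB, huB⟩ := covers (hU _ h2) u
  rw [hz] at hB
  split_ifs at hB with h3
  · rw [zf_true] at hB
    obtain ⟨j, rfl⟩ := hB
    rw [mem_blk] at huB
    rw [huB, mem_I]
    exact h3
  · rw [zf_true] at hB
    obtain ⟨j, rfl⟩ := hB
    rw [mem_blk] at huB
    rw [huB, mem_I] at hu
    exact absurd hu h3

/-- The colour of a block. -/
def colr (A B : Finset (Fin m)) (i : Fin m) : Fin 3 := if i ∈ A then 0 else if i ∈ B then 1 else 2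

theorem key_of (hd : IsDeg U rs d) (hr : 0 < r) (hm : 2 ≤ m) (h1 : ∀ B, d U.out B ≤ 1)
    (hU : ∀ x, U.Val x U.out → Cov x) (π : Num m r) (hπ : U.Val (X (zf π)) U.out) :
    ∃ g' a b, U.gate g' = Gate.and a b ∧ W U d π a ∧ W U d π b ∧
      (∀ B, d a B + d b B ≤ 1) ∧ 2 * (I d π a).card ≤ m ∧ 2 * (I d π b).card ≤ m ∧
      m < 2 * ((I d π a).card + (I d π b).card) := by
  have hW : W U d π U.out := ⟨hπ, h1, fun z _ h => h⟩
  have hI : I d π U.out = univ := by
    rw [eq_univ_iff_forall]
    intro i
    by_contra hi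
    rw [mem_I] at hi
    refine not_cover_rem hr π i (hU _ (dep hd hπ fun B hB => ?_))
    refine (rem_eq ?_).symm
    rintro rfl
    exact hi hB
  refine walk hd hr hm hU π (U.rk U.out + 1) U.out (by omega) hW ?_
  rw [hI, card_univ, Fintype.card_fin]
  omega

end Pool.Agent.W952.SF
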