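import Pool.Agent.W896.FD.PM
import Pool.Agent.W952.SF.Defs

/-!
# Set Cover and circuits of small formal degree: covers by pairs
-/

set_option autoImplicit false

open Finset

namespace Pool.Agent.W952.SF

open Pool.Agent.W896.RK Pool.Agent.W896.HP Pool.Agent.W896.FD

variable {r n : ℕ}

/-- The set of the elements of a pair (of one or two elements). -/
def pr (hr : 2 ≤ r) (e : Sym2 (Fin n)) : Small r n :=
  ⟨e.toFinset, by
    refine le_trans ?_ hr
    induction e with
    | _ a b =>
      rw [Sym2.toFinset_mk_eq]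
      exact Finset.card_le_two⟩

theorem mem_pr (hr : 2 ≤ r) (e : Sym2 (Fin n)) (u : Fin n) : u ∈ (pr hr e).1 ↔ u ∈ e := by
  unfold pr
  exact Sym2.mem_toFinset

theorem pr_inj (hr : 2 ≤ r) : Function.Injective (pr (n := n) hr) := by
  intro e e' h
  apply Sym2.ext
  intro u
  rw [← mem_pr hr, h, mem_pr hr]

theorem fill_true (hr : 2 ≤ r) (G : SimpleGraph (Fin n)) (B : Small r n)
    (h : fill (pr hr) (fun _ => false) (bits G) B = true) :
    ∃ e, e ∈ G.edgeSet ∧ pr hr e = B := by
  classical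
  by_cases h1 : ∃ e, pr hr e = B
  · obtain ⟨e, rfl⟩ := h1
    rw [fill_apply (pr_inj hr)] at h
    refine ⟨e, ?_, rfl⟩
    unfold bits at h
    exact of_decide_eq_true h
  · push Not at h1
    rw [fill_other _ _ h1] at h
    exact absurd h (by decide)

theorem cover_of_pmap (hr : 2 ≤ r) (G : SimpleGraph (Fin n)) (h : PMap G) :
    HasCover (n / 2) (fill (pr hr) (fun _ => false) (bits G)) := by
  classical
  obtain ⟨f, h1, h2⟩ := h
  obtain ⟨F, hF⟩ : ∃ F : Finset (Small r n), F = univ.image (fun x => pr hr s(x, f x)) := ⟨_, rfl⟩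
  have hmem : ∀ B ∈ F, ∃ x, B = pr hr s(x, f x) := by
    intro B hB
    rw [hF, mem_image] at hB
    obtain ⟨x, -, rfl⟩ := hB
    exact ⟨x, rfl⟩
  have hval : ∀ x : Fin n, (pr hr s(x, f x)).1 = {x, f x} := by
    intro x
    ext u
    rw [mem_pr, Sym2.mem_iff, mem_insert, mem_singleton]
  have hdis : ∀ B ∈ F, ∀ C ∈ F, B ≠ C → Disjoint B.1 C.1 := by
    intro B hB C hC hne
    obtain ⟨x, rfl⟩ := hmem B hB
    obtain ⟨y, rfl⟩ := hmem C hC
    rw [Finset.disjoint_left]
    intro u hu hu'
    rw [hval, mem_insert, mem_singleton] at hu hu'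
    apply hne
    have h3 : ∀ w v : Fin n, (w = v ∨ w = f v) → s(v, f v) = s(w, f w) := by
      rintro w v (rfl | rfl)
      · rfl
      · rw [h2]; exact Sym2.eq_swap
    rw [h3 u x hu, h3 u y hu']
  refine ⟨F, ?_, ?_, ?_⟩
  · have h3 : (F.biUnion (fun B => B.1)).card = ∑ B ∈ F, B.1.card :=
      card_biUnion hdis
    have h4 : ∑ B ∈ F, B.1.card = ∑ _B ∈ F, 2 := by
      refine sum_congr rfl (fun B hB => ?_)
      obtain ⟨x, rfl⟩ := hmem B hB
      rw [hval, card_pair]
      exact (h1 x).ne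
    have h5 : (F.biUnion (fun B => B.1)).card ≤ n := by
      have := card_le_univ (F.biUnion (fun B => B.1))
      rwa [Fintype.card_fin] at this
    rw [sum_const, smul_eq_mul] at h4
    omega
  · intro B hB
    obtain ⟨x, rfl⟩ := hmem B hB
    rw [fill_apply (pr_inj hr)]
    unfold bits
    exact decide_eq_true (h1 x)
  · intro u
    refine ⟨pr hr s(u, f u), ?_, ?_⟩
    · rw [hF]
      exact mem_image_of_mem _ (mem_univ u)
    · rw [hval]
      exact mem_insert_self _ _

theorem pmap_of_cover (hr : 2 ≤ r) (hn : Even n) (G : SimpleGraph (Fin n))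
    (h : HasCover (n / 2) (fill (pr hr) (fun _ => false) (bits G))) : PMap G := by
  classical
  obtain ⟨F, h1, h2, h3⟩ := h
  have hn2 : 2 * (n / 2) = n := Nat.two_mul_div_two_of_even hn
  have hcard : ∀ B ∈ F, B.1.card = 2 := by
    intro B hB
    obtain ⟨e, he, rfl⟩ := fill_true hr G B (h2 B hB)
    induction e with
    | _ a b =>
      have : (pr hr s(a, b)).1 = {a, b} := by
        ext u
        rw [mem_pr, Sym2.mem_iff, mem_insert, mem_singleton]
      rw [this, card_pair]
      exact (G.mem_edgeSet.1 he).ne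
  have hU : F.biUnion (fun B => B.1) = univ := by
    ext u
    simp only [mem_biUnion, mem_univ, iff_true]
    exact h3 u
  have hsum : ∑ B ∈ F, B.1.card ≤ (F.biUnion (fun B => B.1)).card := by
    rw [hU, card_univ, Fintype.card_fin, sum_congr rfl hcard, sum_const, smul_eq_mul]
    omega
  -- every element is in exactly one set
  have huniq : ∀ u : Fin n, ∀ B ∈ F, ∀ C ∈ F, u ∈ B.1 → u ∈ C.1 → B = C := by
    intro u B hB C hC hu hu'
    by_contra hne
    have h4 : (F.biUnion (fun B => B.1)).card < ∑ B ∈ F, B.1.card := by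
      have h5 : F.biUnion (fun B => B.1) =
          ((F.erase B).biUnion (fun B => B.1)) ∪ (B.1.erase u) := by
        ext w
        simp only [mem_biUnion, mem_union, mem_erase]
        constructor
        · rintro ⟨D, hD, hw⟩
          by_cases hDB : D = B
          · subst hDB
            by_cases hwu : w = u
            · subst hwu
              exact Or.inl ⟨C, ⟨Ne.symm hne, hC⟩, hu'⟩
            · exact Or.inr ⟨hwu, hw⟩
          · exact Or.inl ⟨D, ⟨hDB, hD⟩, hw⟩
        · rintro (⟨D, ⟨-, hD⟩, hw⟩ | ⟨-, hw⟩)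
          · exact ⟨D, hD, hw⟩
          · exact ⟨B, hB, hw⟩
      rw [h5]
      calc _ ≤ ((F.erase B).biUnion (fun B => B.1)).card + (B.1.erase u).card :=
            card_union_le _ _
        _ ≤ (∑ D ∈ F.erase B, D.1.card) + (B.1.erase u).card :=
            Nat.add_le_add_right card_biUnion_le _
        _ < (∑ D ∈ F.erase B, D.1.card) + B.1.card := by
            apply Nat.add_lt_add_left
            exact card_erase_lt_of_mem hu
        _ = _ := by rw [add_comm]; exact add_sum_erase F (fun D => D.1.card) hB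
    omega
  choose S hS hSu using h3
  have hex : ∀ u : Fin n, ∃ w, w ≠ u ∧ (S u).1 = {u, w} := by
    intro u
    have h4 := hcard _ (hS u)
    rw [card_eq_two] at h4
    obtain ⟨a, b, hab, h5⟩ := h4
    have h6 := hSu u
    rw [h5, mem_insert, mem_singleton] at h6
    rcases h6 with rfl | rfl
    · exact ⟨b, hab.symm, h5⟩
    · exact ⟨a, hab, by rw [h5, pair_comm]⟩
  choose f hf1 hf2 using hex
  refine ⟨f, fun u => ?_, fun u => ?_⟩
  · obtain ⟨e, he, h4⟩ := fill_true hr G _ (h2 _ (hS u))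
    have h5 : e = s(u, f u) := by
      apply Sym2.ext
      intro w
      rw [← mem_pr hr, h4, hf2, Sym2.mem_iff, mem_insert, mem_singleton]
    rw [h5] at he
    exact G.mem_edgeSet.1 he
  · have h4 : S (f u) = S u := by
      apply huniq (f u) _ (hS _) _ (hS _) (hSu _)
      rw [hf2 u]
      exact mem_insert_of_mem (mem_singleton_self _)
    have h5 : u ∈ (S (f u)).1 := by
      rw [h4]; exact hSu u
    rw [hf2 (f u), mem_insert, mem_singleton] at h5
    rcases h5 with h5 | h5
    · exact absurd h5.symm (hf1 u)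
    · exact h5.symm

theorem pairs_final (k n r : ℕ) (hn : Even n) (hr : 2 ≤ r) (R : Type) [Fintype R] [Nonempty R]
    (U : R → Circ (Small r n))
    (hU : ∀ ρ x, (U ρ).Val x (U ρ).out → HasCover (n / 2) x)
    (hc : ∀ x : Small r n → Bool, HasCover (n / 2) x →
      Nat.card R ≤ 2 ^ (n / 2 ^ (60 * (k + 1))) * Nat.card {ρ // (U ρ).Val x (U ρ).out})
    (hd : ∀ ρ, ∃ d : (U ρ).G → Sym2 (Fin n) → ℕ, IsDeg (U ρ) (pr hr) d ∧
      ∑ e, d (U ρ).out e ≤ k * n ^ 2) :
    ∃ ρ, n ≤ 2 ^ (60 * (k + 1)) * (Nat.log 2 (Fintype.card (U ρ).G) + 1) := by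
  classical
  obtain ⟨b, hb⟩ : ∃ b, b = n / 6 := ⟨_, rfl⟩
  obtain ⟨q, hq⟩ : ∃ q, q = n % 6 := ⟨_, rfl⟩
  have hre : Even q := by
    rw [Nat.even_iff] at hn ⊢
    omega
  have hcard : Fintype.card (WV b q) = Fintype.card (Fin n) := by
    rw [Fintype.card_sum, Fintype.card_prod, Fintype.card_fin, Fintype.card_fin,
      Fintype.card_fin, Fintype.card_fin]
    omega
  obtain ⟨φ⟩ : Nonempty (WV b q ≃ Fin n) := ⟨Fintype.equivOfCardEq hcard⟩
  refine final_graph k (b := b) (by omega) φ (cc b q) (base b q) (pr_inj hr) (fun _ => false)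
    (fun G => PMap G) ?_ ?_ ?_ R U ?_ ?_ hd
  · intro G ρ h
    exact h.iso (SimpleGraph.Iso.map ρ G)
  · intro z
    exact (pmap_state hre z).iso (SimpleGraph.Iso.map φ _)
  · intro z z' h
    exact ((cherry_mix (r := q) h).iso (SimpleGraph.Iso.map φ _)).not_pmap
  · intro ρ G hG
    exact pmap_of_cover hr hn G (hU ρ _ hG)
  · intro G hG
    exact hc _ (cover_of_pmap hr G hG)

end Pool.Agent.W952.SF
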